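import Mathlib

/-!
# MP_23899c_an: a Dedekind complete projective Banach lattice that is no ℓ₁-sum of
finite-dimensional Banach lattices

The space `P` is `ℓ₁(ℕ)` with the norm `‖x‖ = sup { ∑ |x n| f n : f ≥ 0, f n + f (n+1) ≤ 1 }`.
-/

set_option autoImplicit false
set_option linter.unusedSectionVars false

namespace Pool.Agent.Results.MP_23899c_an.DedekindProjective

/-- Every nonempty subset that is bounded above has a supremum. -/
def DedekindComplete (P : Type*) [Lattice P] : Prop :=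
  ∀ S : Set P, S.Nonempty → BddAbove S → ∃ u, IsLUB S u

/-- Every countable nonempty subset that is bounded above has a supremum. -/
def DedekindSigmaComplete (P : Type*) [Lattice P] : Prop :=
  ∀ S : Set P, S.Countable → S.Nonempty → BddAbove S → ∃ u, IsLUB S u

/-- A closed (lattice) ideal of a Banach lattice. -/
structure IsClosedIdeal {X : Type*} [NormedAddCommGroup X] [NormedSpace ℝ X] [Lattice X]
    (J : Submodule ℝ X) : Prop where
  isClosed : IsClosed (J : Set X)
  solid : ∀ x y : X, |x| ≤ |y| → y ∈ J → x ∈ J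

/-- A bounded linear map `T : P → X / J` preserves binary suprema and infima, where the lattice
operations of `X / J` are given by those of representatives. -/
def IsLatticeHomToQuotient {P X : Type*} [NormedAddCommGroup P] [NormedSpace ℝ P] [Lattice P]
    [NormedAddCommGroup X] [NormedSpace ℝ X] [Lattice X] (J : Submodule ℝ X)
    (T : P →L[ℝ] X ⧸ J) : Prop :=
  ∀ (a b : P) (u v : X), T a = J.mkQ u → T b = J.mkQ v →
    T (a ⊔ b) = J.mkQ (u ⊔ v) ∧ T (a ⊓ b) = J.mkQ (u ⊓ v)

/-- A bounded linear map `T : P → X` preserves binary suprema and infima. -/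
def IsLatticeHom {P X : Type*} [NormedAddCommGroup P] [NormedSpace ℝ P] [Lattice P]
    [NormedAddCommGroup X] [NormedSpace ℝ X] [Lattice X] (T : P →L[ℝ] X) : Prop :=
  ∀ a b : P, T (a ⊔ b) = T a ⊔ T b ∧ T (a ⊓ b) = T a ⊓ T b

/-- `P` is a projective Banach lattice (isometric notion): every lattice homomorphism `T` into a
quotient `X / J` of a Banach lattice by a closed ideal has for every `ε > 0` a lifting
`T' : P → X` to a lattice homomorphism with `‖T'‖ ≤ (1 + ε) ‖T‖`. -/
def Projective.{u, v} (P : Type v) [NormedAddCommGroup P] [NormedSpace ℝ P] [Lattice P] : Prop :=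
  ∀ (X : Type u) [NormedAddCommGroup X] [NormedSpace ℝ X] [Lattice X] [HasSolidNorm X]
    [IsOrderedAddMonoid X] [IsOrderedModule ℝ X] [CompleteSpace X] (J : Submodule ℝ X),
    IsClosedIdeal J → ∀ T : P →L[ℝ] X ⧸ J, IsLatticeHomToQuotient J T →
      ∀ ε : ℝ, 0 < ε → ∃ T' : P →L[ℝ] X, IsLatticeHom T' ∧ (∀ a, J.mkQ (T' a) = T a) ∧
        ‖T'‖ ≤ (1 + ε) * ‖T‖

/-- `P` is isometrically lattice isomorphic to the `ℓ₁`-sum (with the coordinatewise order) of a
family of finite-dimensional Banach lattices. -/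
def IsL1SumOfFiniteDimensional.{u, v, w} (P : Type w) [NormedAddCommGroup P] [NormedSpace ℝ P]
    [Lattice P] : Prop :=
  ∃ (ι : Type u) (E : ι → Type v) (_ : ∀ i, NormedAddCommGroup (E i))
    (_ : ∀ i, NormedSpace ℝ (E i)) (_ : ∀ i, Lattice (E i)) (_ : ∀ i, HasSolidNorm (E i))
    (_ : ∀ i, IsOrderedAddMonoid (E i)) (_ : ∀ i, IsOrderedModule ℝ (E i))
    (_ : ∀ i, FiniteDimensional ℝ (E i)) (Φ : P ≃ₗᵢ[ℝ] lp E 1),
    ∀ a b : P, a ≤ b ↔ ∀ i, Φ a i ≤ Φ b i

/-! ### The space -/

/-- The absolutely summable real sequences. -/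
def Sub : Submodule ℝ (ℕ → ℝ) where
  carrier := {x | Summable fun n => |x n|}
  zero_mem' := by simp [summable_zero]
  add_mem' := by
    intro a b ha hb
    exact Summable.of_nonneg_of_le (fun n => abs_nonneg _) (fun n => abs_add_le _ _) (ha.add hb)
  smul_mem' := by
    intro c x hx
    have : (fun n => |(c • x) n|) = fun n => |c| * |x n| := by
      funext n; simp [abs_mul]
    show Summable (fun n => |(c • x) n|)
    rw [this]
    exact Summable.mul_left _ hx

/-- The space `P` as a vector space. -/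
def P : Type := Sub

noncomputable instance : AddCommGroup P := inferInstanceAs (AddCommGroup Sub)
noncomputable instance : Module ℝ P := inferInstanceAs (Module ℝ Sub)

instance : CoeFun P (fun _ => ℕ → ℝ) := ⟨fun x => x.1⟩

lemma P_ext {x y : P} (h : ∀ n, x n = y n) : x = y := Subtype.ext (funext h)

@[simp] lemma add_ap (x y : P) (n : ℕ) : (x + y) n = x n + y n := rfl
@[simp] lemma sub_ap (x y : P) (n : ℕ) : (x - y) n = x n - y n := rfl
@[simp] lemma neg_ap (x : P) (n : ℕ) : (-x) n = -x n := rfl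
@[simp] lemma zero_ap (n : ℕ) : (0 : P) n = 0 := rfl
@[simp] lemma smul_ap (c : ℝ) (x : P) (n : ℕ) : (c • x) n = c * x n := rfl

lemma summ (x : P) : Summable fun n => |x n| := x.2

noncomputable instance : Lattice P :=
  Subtype.lattice (P := fun x : ℕ → ℝ => x ∈ Sub)
    (by
      intro x y hx hy
      refine Summable.of_nonneg_of_le (fun n => abs_nonneg _) (fun n => ?_) (hx.add hy)
      show |max (x n) (y n)| ≤ |x n| + |y n|
      rcases max_cases (x n) (y n) with h | h <;> rw [h.1] <;>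
        linarith [abs_nonneg (x n), abs_nonneg (y n)])
    (by
      intro x y hx hy
      refine Summable.of_nonneg_of_le (fun n => abs_nonneg _) (fun n => ?_) (hx.add hy)
      show |min (x n) (y n)| ≤ |x n| + |y n|
      rcases min_cases (x n) (y n) with h | h <;> rw [h.1] <;>
        linarith [abs_nonneg (x n), abs_nonneg (y n)])

lemma le_iff {x y : P} : x ≤ y ↔ ∀ n, x n ≤ y n := Iff.rfl
@[simp] lemma sup_ap (x y : P) (n : ℕ) : (x ⊔ y) n = max (x n) (y n) := rfl
@[simp] lemma inf_ap (x y : P) (n : ℕ) : (x ⊓ y) n = min (x n) (y n) := rfl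
@[simp] lemma abs_ap (x : P) (n : ℕ) : (|x|) n = |x n| := rfl

instance : IsOrderedAddMonoid P where
  add_le_add_left a b h c := fun n => by
    have := h n
    show a n + c n ≤ b n + c n
    exact add_le_add_left this _

instance : IsOrderedModule ℝ P where
  smul_le_smul_of_nonneg_left := by
    intro a ha b c h n
    exact mul_le_mul_of_nonneg_left (h n) ha
  smul_le_smul_of_nonneg_right := by
    intro a ha b c h n
    exact mul_le_mul_of_nonneg_right h (ha n)

/-- The weights `f ≥ 0` with `f n + f (n+1) ≤ 1`. -/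
def K : Type := {f : ℕ → ℝ // (∀ n, 0 ≤ f n) ∧ ∀ n, f n + f (n + 1) ≤ 1}

instance : Nonempty K := ⟨⟨fun _ => 0, fun _ => le_rfl, fun _ => by norm_num⟩⟩

lemma K_le_one (f : K) (n : ℕ) : f.1 n ≤ 1 := by
  have := f.2.2 n
  have := f.2.1 (n + 1)
  linarith

lemma summK (x : P) (f : K) : Summable fun n => |x n| * f.1 n := by
  refine Summable.of_nonneg_of_le (fun n => mul_nonneg (abs_nonneg _) (f.2.1 n)) (fun n => ?_)
    (summ x)
  exact mul_le_of_le_one_right (abs_nonneg _) (K_le_one f n)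

lemma tsumK_le (x : P) (f : K) : ∑' n, |x n| * f.1 n ≤ ∑' n, |x n| :=
  Summable.tsum_le_tsum (fun n => mul_le_of_le_one_right (abs_nonneg _) (K_le_one f n))
    (summK x f) (summ x)

lemma bdd (x : P) : BddAbove (Set.range fun f : K => ∑' n, |x n| * f.1 n) :=
  ⟨∑' n, |x n|, by rintro _ ⟨f, rfl⟩; exact tsumK_le x f⟩

/-- The norm as a function. -/
noncomputable def nrm (x : P) : ℝ := ⨆ f : K, ∑' n, |x n| * f.1 n

lemma le_nrm (x : P) (f : K) : ∑' n, |x n| * f.1 n ≤ nrm x := le_ciSup (bdd x) f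

lemma nrm_le_of {x : P} {r : ℝ} (h : ∀ f : K, ∑' n, |x n| * f.1 n ≤ r) : nrm x ≤ r := ciSup_le h

lemma nrm_le_l1 (x : P) : nrm x ≤ ∑' n, |x n| := nrm_le_of (tsumK_le x)

/-- The weight `1/2`. -/
noncomputable def halfK : K := ⟨fun _ => 1 / 2, fun _ => by norm_num, fun _ => by norm_num⟩

lemma l1_le_nrm (x : P) : ∑' n, |x n| ≤ 2 * nrm x := by
  have h := le_nrm x halfK
  have h2 : ∑' n, |x n| * halfK.1 n = (∑' n, |x n|) * (1 / 2) := tsum_mul_right
  rw [h2] at h
  linarith

/-- The weight that is `1` at `n` and `0` elsewhere. -/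
noncomputable def deltaK (n : ℕ) : K := ⟨fun k => if k = n then 1 else 0, fun k => by
  dsimp only; split_ifs <;> norm_num, fun k => by
  dsimp only
  by_cases h : k = n
  · subst h; simp
  · rw [if_neg h]; split_ifs <;> norm_num⟩

lemma coord_le_nrm (x : P) (n : ℕ) : |x n| ≤ nrm x := by
  have h := le_nrm x (deltaK n)
  have h2 : ∑' k, |x k| * (deltaK n).1 k = |x n| := by
    rw [tsum_eq_single n]
    · simp [deltaK]
    · intro k hk
      simp [deltaK, hk]
  rwa [h2] at h

/-- The norm. -/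
noncomputable def nrmGroup : AddGroupNorm P where
  toFun := nrm
  map_zero' := by
    apply le_antisymm
    · apply nrm_le_of; intro f; simp
    · have := coord_le_nrm 0 0
      exact le_trans (abs_nonneg _) this
  add_le' x y := by
    apply nrm_le_of
    intro f
    have h1 : ∑' n, |(x + y) n| * f.1 n ≤ ∑' n, (|x n| * f.1 n + |y n| * f.1 n) := by
      refine Summable.tsum_le_tsum (fun n => ?_) (summK _ f) ((summK x f).add (summK y f))
      rw [← add_mul]
      exact mul_le_mul_of_nonneg_right (abs_add_le _ _) (f.2.1 n)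
    rw [Summable.tsum_add (summK x f) (summK y f)] at h1
    exact h1.trans (add_le_add (le_nrm x f) (le_nrm y f))
  neg' x := by simp [nrm]
  eq_zero_of_map_eq_zero' x hx := by
    apply P_ext
    intro n
    have := coord_le_nrm x n
    have h0 : nrm x = 0 := hx
    rw [h0] at this
    simpa using this

noncomputable instance : NormedAddCommGroup P := nrmGroup.toNormedAddCommGroup

lemma norm_def (x : P) : ‖x‖ = nrm x := rfl

noncomputable instance : NormedSpace ℝ P where
  norm_smul_le c x := by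
    rw [norm_def, norm_def]
    apply nrm_le_of
    intro f
    have : ∑' n, |(c • x) n| * f.1 n = |c| * ∑' n, |x n| * f.1 n := by
      rw [← tsum_mul_left]
      apply tsum_congr
      intro n
      rw [smul_ap, abs_mul, mul_assoc]
    rw [this, Real.norm_eq_abs]
    exact mul_le_mul_of_nonneg_left (le_nrm x f) (abs_nonneg _)

instance : HasSolidNorm P where
  solid x y h := by
    rw [norm_def, norm_def]
    apply nrm_le_of
    intro f
    refine le_trans ?_ (le_nrm y f)
    refine Summable.tsum_le_tsum (fun n => ?_) (summK _ f) (summK _ f)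
    exact mul_le_mul_of_nonneg_right (h n) (f.2.1 n)

/-- The comparison with `ℓ₁`. -/
noncomputable def toL1 : P ≃ₗ[ℝ] lp (fun _ : ℕ => ℝ) 1 where
  toFun x := ⟨x.1, by
    apply (memℓp_gen_iff (by simp)).2
    simpa using summ x⟩
  invFun y := ⟨fun n => y n, by
    have := (memℓp_gen_iff (by simp)).1 (lp.memℓp y)
    show Summable _
    simpa using this⟩
  map_add' x y := rfl
  map_smul' c x := rfl
  left_inv x := rfl
  right_inv y := rfl

lemma norm_toL1 (x : P) : ‖toL1 x‖ = ∑' n, |x n| := by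
  rw [lp.norm_eq_tsum_rpow (by simp)]
  simp
  rfl

instance : CompleteSpace P := by
  let e := toL1.toContinuousLinearEquivOfBounds 2 1
    (fun x => by rw [norm_toL1]; exact l1_le_nrm x)
    (fun y => by
      obtain ⟨x, rfl⟩ := toL1.surjective y
      rw [LinearEquiv.symm_apply_apply, one_mul, norm_toL1]
      exact nrm_le_l1 x)
  exact (completeSpace_congr (e := e.toEquiv) e.isUniformEmbedding).2 inferInstance

lemma dedekind : DedekindComplete P := by
  intro S ⟨s, hs⟩ ⟨b, hb⟩
  have hbd : ∀ n, BddAbove (Set.range fun x : S => x.1 n) := fun n =>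
    ⟨b n, by rintro _ ⟨x, rfl⟩; exact hb x.2 n⟩
  have : Nonempty S := ⟨⟨s, hs⟩⟩
  have hsup : ∀ n, s n ≤ (⨆ x : S, x.1 n) ∧ (⨆ x : S, x.1 n) ≤ b n := fun n =>
    ⟨le_ciSup (hbd n) ⟨s, hs⟩, ciSup_le fun x => hb x.2 n⟩
  refine ⟨⟨fun n => ⨆ x : S, x.1 n, ?_⟩, ?_, ?_⟩
  · refine Summable.of_nonneg_of_le (fun n => abs_nonneg _) (fun n => ?_) ((summ s).add (summ b))
    obtain ⟨h1, h2⟩ := hsup n
    rw [abs_le]
    constructor
    · linarith [neg_abs_le (s n), abs_nonneg (b n)]
    · linarith [le_abs_self (b n), abs_nonneg (s n)]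
  · intro x hx n
    exact le_ciSup (hbd n) ⟨x, hx⟩
  · intro u hu n
    exact ciSup_le fun x => hu x.2 n

/-! ### The unit vectors -/

/-- The unit vectors of `P`. -/
noncomputable def e (n : ℕ) : P := ⟨Pi.single n 1, by
  show Summable _
  refine summable_of_ne_finset_zero (s := {n}) ?_
  intro k hk
  simp only [Finset.mem_singleton] at hk
  simp [hk]⟩

lemma e_ap (n k : ℕ) : (e n) k = if k = n then 1 else 0 := by
  show (Pi.single n 1 : ℕ → ℝ) k = _
  rw [Pi.single_apply]

lemma norm_e_pair (n : ℕ) : ‖e n + e (n + 1)‖ ≤ 1 := by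
  rw [norm_def]
  apply nrm_le_of
  intro f
  have h : ∑' k, |(e n + e (n + 1)) k| * f.1 k = ∑ k ∈ ({n, n + 1} : Finset ℕ), f.1 k := by
    rw [tsum_eq_sum (s := ({n, n + 1} : Finset ℕ))]
    · apply Finset.sum_congr rfl
      intro k hk
      simp only [Finset.mem_insert, Finset.mem_singleton] at hk
      rcases hk with rfl | rfl
      · simp [e_ap]
      · simp [e_ap]
    · intro k hk
      simp only [Finset.mem_insert, Finset.mem_singleton, not_or] at hk
      simp [e_ap, hk.1, hk.2]
  rw [h, Finset.sum_pair (by omega)]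
  exact f.2.2 n

lemma norm_e_le (n : ℕ) : ‖e n‖ ≤ 1 := by
  refine le_trans ?_ (norm_e_pair n)
  apply norm_le_norm_of_abs_le_abs
  intro k
  simp only [abs_ap, add_ap, e_ap]
  split_ifs <;> norm_num

lemma norm_e (n : ℕ) : ‖e n‖ = 1 := by
  apply le_antisymm (norm_e_le n)
  have := coord_le_nrm (e n) n
  rw [e_ap, if_pos rfl, abs_one] at this
  exact this

/-- The coordinates as bounded linear maps. -/
noncomputable def coord (n : ℕ) : P →L[ℝ] ℝ :=
  LinearMap.mkContinuous ⟨⟨fun x => x n, fun _ _ => rfl⟩, fun _ _ => rfl⟩ 1 (fun x => by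
    rw [one_mul]; exact coord_le_nrm x n)

@[simp] lemma coord_ap (n : ℕ) (x : P) : coord n x = x n := rfl

lemma hasSum_e (x : P) : HasSum (fun n => x n • e n) x := by
  have hs : Summable (fun n => x n • e n) := by
    apply Summable.of_norm
    refine Summable.of_nonneg_of_le (fun _ => norm_nonneg _) (fun n => ?_) (summ x)
    rw [norm_smul, norm_e, mul_one, Real.norm_eq_abs]
  have h : ∑' n, x n • e n = x := by
    apply P_ext
    intro k
    have h1 := (coord k).map_tsum hs
    rw [coord_ap] at h1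
    rw [h1, tsum_eq_single k]
    · simp [e_ap]
    · intro n hn
      simp [e_ap, hn.symm]
  rw [← h]
  simpa [h] using hs.hasSum

/-! ### Not an `ℓ₁`-sum -/

lemma atom {n : ℕ} {z : P} (h0 : 0 ≤ z) (h1 : z ≤ e n) : z = z n • e n := by
  apply P_ext
  intro k
  rw [smul_ap, e_ap]
  split_ifs with h
  · rw [h, mul_one]
  · have a := h0 k
    have b := h1 k
    rw [e_ap, if_neg h] at b
    rw [mul_zero]
    exact le_antisymm b a

lemma notL1.{u, v} : ¬ IsL1SumOfFiniteDimensional.{u, v} P := by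
  rintro ⟨ι, E, _, _, _, _, _, _, _, Φ, hΦ⟩
  classical
  have key : ∀ n, ∃ i, Φ (e n) = lp.single 1 i (Φ (e n) i) ∧ Φ (e n) i ≠ 0 := by
    intro n
    have hne : Φ (e n) ≠ 0 := by
      intro h
      have h2 := Φ.norm_map (e n)
      rw [h, norm_zero, norm_e] at h2
      norm_num at h2
    obtain ⟨i, hi⟩ : ∃ i, Φ (e n) i ≠ 0 := by
      by_contra hcon
      push Not at hcon
      apply hne
      ext i
      exact hcon i
    refine ⟨i, ?_, hi⟩
    have hpos : ∀ j, 0 ≤ Φ (e n) j := by
      have h0 : (0 : P) ≤ e n := fun k => by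
        rw [zero_ap, e_ap]; split_ifs <;> norm_num
      have := (hΦ 0 (e n)).1 h0
      intro j
      have h3 := this j
      rw [map_zero] at h3
      exact h3
    set u : lp E 1 := lp.single 1 i (Φ (e n) i) with hu
    have hz0 : (0 : P) ≤ Φ.symm u := by
      rw [hΦ]
      intro j
      rw [map_zero, Φ.apply_symm_apply]
      by_cases hj : j = i
      · subst hj
        rw [hu, lp.single_apply_self]
        exact hpos j
      · rw [hu, lp.single_apply_ne _ _ _ hj]
        exact le_rfl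
    have hz1 : Φ.symm u ≤ e n := by
      rw [hΦ]
      intro j
      rw [Φ.apply_symm_apply]
      by_cases hj : j = i
      · subst hj
        rw [hu, lp.single_apply_self]
      · rw [hu, lp.single_apply_ne _ _ _ hj]
        exact hpos j
    have hz := atom hz0 hz1
    have h4 : u = (Φ.symm u) n • Φ (e n) := by
      have := congrArg Φ hz
      rw [Φ.apply_symm_apply, map_smul] at this
      exact this
    have h5 : Φ (e n) i = (Φ.symm u) n • Φ (e n) i := by
      have := congrArg (fun w : lp E 1 => w i) h4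
      simp only [hu, lp.single_apply_self] at this
      exact this
    have h6 : (Φ.symm u) n = 1 := by
      by_contra hc
      have : (1 - (Φ.symm u) n) • Φ (e n) i = 0 := by
        rw [sub_smul, one_smul, ← h5, sub_self]
      rcases smul_eq_zero.1 this with h | h
      · exact hc (by linarith)
      · exact hi h
    rw [h6, one_smul] at h4
    exact h4.symm
  choose i hi using key
  have step : ∀ n, i n = i (n + 1) := by
    intro n
    by_contra hne
    have h1 := norm_e_pair n
    rw [← Φ.norm_map, map_add, (hi n).1, (hi (n + 1)).1] at h1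
    have h2 := lp.norm_sum_single (p := 1) (by simp)
      (fun j => if j = i n then Φ (e n) j else Φ (e (n + 1)) j) {i n, i (n + 1)}
    rw [Finset.sum_pair hne, Finset.sum_pair hne] at h2
    simp only [if_true, if_neg (Ne.symm hne)] at h2
    simp only [ENNReal.toReal_one, Real.rpow_one] at h2
    rw [h2] at h1
    have h3 : ∀ m, ‖Φ (e m) (i m)‖ = 1 := by
      intro m
      have := Φ.norm_map (e m)
      rw [(hi m).1, lp.norm_single (by simp), norm_e] at this
      exact this
    rw [h3, h3] at h1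
    norm_num at h1
  have hall : ∀ n, i n = i 0 := by
    intro n
    induction n with
    | zero => rfl
    | succ n ih => rw [← step n, ih]
  -- linear independence
  let L : E (i 0) →ₗ[ℝ] P := Φ.symm.toLinearEquiv.toLinearMap.comp (lp.lsingle 1 (i 0))
  have hL : ∀ n, e n ∈ LinearMap.range L := by
    intro n
    refine ⟨Φ (e n) (i 0), ?_⟩
    show Φ.symm (lp.single 1 (i 0) (Φ (e n) (i 0))) = e n
    rw [← hall n, ← (hi n).1, Φ.symm_apply_apply]
  have hind : LinearIndependent ℝ e := by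
    have h1 := Pi.linearIndependent_single_one ℕ ℝ
    have h2 : LinearIndependent ℝ (fun n => (Sub.subtype (e n) : ℕ → ℝ)) := h1
    exact LinearIndependent.of_comp Sub.subtype h2
  have h3 : LinearIndependent ℝ (fun n => (⟨e n, hL n⟩ : LinearMap.range L)) := by
    apply LinearIndependent.of_comp (LinearMap.range L).subtype
    exact hind
  have : Finite ℕ := h3.finite
  exact not_finite ℕ

/-! ### Lattice lemmas -/

section Lat

variable {X : Type*} [NormedAddCommGroup X] [NormedSpace ℝ X] [Lattice X] [HasSolidNorm X]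
  [IsOrderedAddMonoid X] [IsOrderedModule ℝ X]

lemma disj_mono {a b a' b' : X} (ha : 0 ≤ a) (hb : 0 ≤ b) (haa : a ≤ a') (hbb : b ≤ b')
    (h : a' ⊓ b' = 0) : a ⊓ b = 0 :=
  le_antisymm (h ▸ inf_le_inf haa hbb) (le_inf ha hb)

lemma disj_add {a b c : X} (ha : 0 ≤ a) (hb : 0 ≤ b) (hc : 0 ≤ c) (h1 : a ⊓ b = 0)
    (h2 : a ⊓ c = 0) : a ⊓ (b + c) = 0 := by
  apply le_antisymm _ (le_inf ha (add_nonneg hb hc))
  have key : a ⊓ (b + c) ≤ a ⊓ b + a ⊓ c := by
    rw [inf_add, add_inf, add_inf]
    refine le_inf (le_inf ?_ ?_) (le_inf ?_ ?_)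
    · exact inf_le_left.trans (le_add_of_nonneg_left ha)
    · exact inf_le_left.trans (le_add_of_nonneg_right hc)
    · exact inf_le_left.trans (le_add_of_nonneg_left hb)
    · exact inf_le_right
  rw [h1, h2, add_zero] at key
  exact key

lemma disj_smul {a b : X} (ha : 0 ≤ a) (hb : 0 ≤ b) (h : a ⊓ b = 0) {t : ℝ} (ht : 0 ≤ t) :
    a ⊓ (t • b) = 0 := by
  have htb : 0 ≤ t • b := smul_nonneg ht hb
  have hc : 0 ≤ a ⊓ (t • b) := le_inf ha htb
  apply le_antisymm _ hc
  have ht1 : (0 : ℝ) < t + 1 := by linarith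
  have h1 : (t + 1)⁻¹ • (a ⊓ (t • b)) ≤ a := by
    calc (t + 1)⁻¹ • (a ⊓ (t • b)) ≤ (1 : ℝ) • (a ⊓ (t • b)) :=
          smul_le_smul_of_nonneg_right (inv_le_one_of_one_le₀ (by linarith)) hc
      _ = a ⊓ (t • b) := one_smul _ _
      _ ≤ a := inf_le_left
  have h2 : (t + 1)⁻¹ • (a ⊓ (t • b)) ≤ b := by
    calc (t + 1)⁻¹ • (a ⊓ (t • b)) ≤ (t + 1)⁻¹ • (t • b) :=
          smul_le_smul_of_nonneg_left inf_le_right (inv_nonneg.2 ht1.le)
      _ = ((t + 1)⁻¹ * t) • b := smul_smul _ _ _
      _ ≤ (1 : ℝ) • b := smul_le_smul_of_nonneg_right (by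
          rw [inv_mul_le_iff₀ ht1]; linarith) hb
      _ = b := one_smul _ _
  have h3 : (t + 1)⁻¹ • (a ⊓ (t • b)) ≤ 0 := by
    rw [← h]; exact le_inf h1 h2
  have h4 := smul_le_smul_of_nonneg_left h3 ht1.le
  rwa [smul_smul, mul_inv_cancel₀ ht1.ne', one_smul, smul_zero] at h4

lemma disj_sum {a : X} (ha : 0 ≤ a) (w : ℕ → X) (hw : ∀ m, 0 ≤ w m) (h : ∀ m, a ⊓ w m = 0)
    (F : Finset ℕ) : a ⊓ ∑ m ∈ F, w m = 0 := by
  induction F using Finset.induction_on with
  | empty => simpa using ha
  | insert m F hm ih =>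
    rw [Finset.sum_insert hm]
    exact disj_add ha (hw m) (Finset.sum_nonneg fun m _ => hw m) (h m) ih

lemma disj_hasSum {a : X} (ha : 0 ≤ a) {w : ℕ → X} (hw : ∀ m, 0 ≤ w m) (h : ∀ m, a ⊓ w m = 0)
    {s : X} (hs : HasSum w s) : a ⊓ s = 0 := by
  have h1 : Filter.Tendsto (fun F : Finset ℕ => a ⊓ ∑ m ∈ F, w m) Filter.atTop
      (nhds (a ⊓ s)) := tendsto_const_nhds.inf_nhds hs
  have h2 : (fun F : Finset ℕ => a ⊓ ∑ m ∈ F, w m) = fun _ => 0 := by
    funext F; exact disj_sum ha w hw h F
  rw [h2] at h1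
  exact tendsto_nhds_unique h1 tendsto_const_nhds |>.symm ▸ rfl

lemma nonneg_hasSum {w : ℕ → X} (hw : ∀ m, 0 ≤ w m) {s : X} (hs : HasSum w s) : 0 ≤ s := by
  have h1 : Filter.Tendsto (fun F : Finset ℕ => 0 ⊓ ∑ m ∈ F, w m) Filter.atTop
      (nhds (0 ⊓ s)) := tendsto_const_nhds.inf_nhds hs
  have h2 : (fun F : Finset ℕ => (0 : X) ⊓ ∑ m ∈ F, w m) = fun _ => 0 := by
    funext F; exact inf_eq_left.2 (Finset.sum_nonneg fun m _ => hw m)
  rw [h2] at h1
  have h3 := tendsto_nhds_unique h1 tendsto_const_nhds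
  exact inf_eq_left.1 h3

lemma posPart_of_disj {p q : X} (h : p ⊓ q = 0) : (p - q) ⊔ 0 = p := by
  have h1 : (p - q) ⊔ 0 + q = p ⊔ q := by rw [sup_add, sub_add_cancel, zero_add]
  have h2 := inf_add_sup p q
  rw [h, zero_add] at h2
  rw [h2] at h1
  exact add_right_cancel h1

end Lat

/-! ### Projectivity -/

section Proj

variable {X : Type*} [NormedAddCommGroup X] [NormedSpace ℝ X] [Lattice X] [HasSolidNorm X]
  [IsOrderedAddMonoid X] [IsOrderedModule ℝ X] [CompleteSpace X]

/-- The part of the weighted sum with the term `n` removed. -/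
noncomputable def rest (x : ℕ → X) (n : ℕ) (k : ℕ) : X := if k = n then 0 else ((1 / 2 : ℝ) ^ k) • x k

lemma summable_rest {x : ℕ → X} {C : ℝ} (hC : ∀ k, ‖x k‖ ≤ C) (n : ℕ) :
    Summable (rest x n) := by
  apply Summable.of_norm
  have h0 : 0 ≤ C := le_trans (norm_nonneg _) (hC 0)
  refine Summable.of_nonneg_of_le (fun _ => norm_nonneg _) (fun k => ?_)
    ((summable_geometric_of_lt_one (by norm_num : (0 : ℝ) ≤ 1 / 2) (by norm_num)).mul_right C)
  unfold rest
  split_ifs
  · rw [norm_zero]; positivity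
  · rw [norm_smul, norm_pow, Real.norm_of_nonneg (by norm_num : (0 : ℝ) ≤ 1 / 2)]
    exact mul_le_mul_of_nonneg_left (hC k) (by positivity)

/-- The disjoint modification of a sequence. -/
noncomputable def disj (x : ℕ → X) (n : ℕ) : X := (x n - (2 ^ n : ℝ) • ∑' k, rest x n k) ⊔ 0

lemma disj_nonneg (x : ℕ → X) (n : ℕ) : 0 ≤ disj x n := le_sup_right

lemma rest_nonneg {x : ℕ → X} (hx : ∀ k, 0 ≤ x k) (n k : ℕ) : 0 ≤ rest x n k := by
  unfold rest
  split_ifs
  · exact le_rfl
  · exact smul_nonneg (by positivity) (hx k)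

lemma disj_le {x : ℕ → X} (hx : ∀ k, 0 ≤ x k) {C : ℝ} (hC : ∀ k, ‖x k‖ ≤ C) (n : ℕ) :
    disj x n ≤ x n := by
  apply sup_le _ (hx n)
  have h := nonneg_hasSum (rest_nonneg hx n) (summable_rest hC n).hasSum
  exact sub_le_self _ (smul_nonneg (by positivity) h)

lemma le_tsum_rest {x : ℕ → X} (hx : ∀ k, 0 ≤ x k) {C : ℝ} (hC : ∀ k, ‖x k‖ ≤ C) {n m : ℕ}
    (hnm : m ≠ n) : ((1 / 2 : ℝ) ^ m) • x m ≤ ∑' k, rest x n k := by
  have hs := summable_rest hC n
  have h1 : HasSum (fun k => rest x n k - if k = m then rest x n m else 0)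
      ((∑' k, rest x n k) - rest x n m) := by
    apply hs.hasSum.sub
    exact hasSum_ite_eq m (rest x n m)
  have h2 := nonneg_hasSum (fun k => by
    split_ifs with h
    · rw [h, sub_self]
    · rw [sub_zero]; exact rest_nonneg hx n k) h1
  have h3 : rest x n m = ((1 / 2 : ℝ) ^ m) • x m := by unfold rest; rw [if_neg hnm]
  rw [← h3]
  exact sub_nonneg.1 h2

lemma disj_disj {x : ℕ → X} (hx : ∀ k, 0 ≤ x k) {C : ℝ} (hC : ∀ k, ‖x k‖ ≤ C) {n m : ℕ}
    (hnm : n ≠ m) : disj x n ⊓ disj x m = 0 := by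
  set v : X := x n - ((2 : ℝ) ^ n * (1 / 2) ^ m) • x m with hv
  have h1 : disj x n ≤ v ⊔ 0 := by
    apply sup_le_sup_right
    rw [hv]
    apply sub_le_sub_left
    rw [← smul_smul]
    exact smul_le_smul_of_nonneg_left (le_tsum_rest hx hC hnm.symm) (by positivity)
  have h2 : disj x m ≤ ((2 : ℝ) ^ m * (1 / 2) ^ n) • ((-v) ⊔ 0) := by
    have hpos : (0 : ℝ) ≤ (2 : ℝ) ^ m * (1 / 2) ^ n := by positivity
    apply sup_le _ (smul_nonneg hpos le_sup_right)
    have h3 : x m - (2 ^ m : ℝ) • ∑' k, rest x m k ≤ x m - ((2 : ℝ) ^ m * (1 / 2) ^ n) • x n := by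
      apply sub_le_sub_left
      rw [← smul_smul]
      exact smul_le_smul_of_nonneg_left (le_tsum_rest hx hC hnm) (by positivity)
    refine h3.trans ?_
    have h4 : x m - ((2 : ℝ) ^ m * (1 / 2) ^ n) • x n
        = ((2 : ℝ) ^ m * (1 / 2) ^ n) • (-v) := by
      rw [hv, neg_sub, smul_sub, smul_smul]
      have : (2 : ℝ) ^ m * (1 / 2) ^ n * (2 ^ n * (1 / 2) ^ m) = 1 := by
        rw [show (2 : ℝ) ^ m * (1 / 2) ^ n * (2 ^ n * (1 / 2) ^ m)
          = (2 * (1 / 2)) ^ m * (2 * (1 / 2)) ^ n by rw [mul_pow, mul_pow]; ring]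
        norm_num
      rw [this, one_smul]
    rw [h4]
    exact smul_le_smul_of_nonneg_left le_sup_left hpos
  refine disj_mono (disj_nonneg _ _) (disj_nonneg _ _) h1 h2 ?_
  apply disj_smul le_sup_right le_sup_right _ (by positivity)
  have := posPart_inf_negPart_eq_zero v
  exact this

/-! #### The lifted operator -/

lemma summable_lift {y : ℕ → X} {C : ℝ} (hC : ∀ k, ‖y k‖ ≤ C) (a : P) :
    Summable fun n => a n • y n := by
  apply Summable.of_norm
  refine Summable.of_nonneg_of_le (fun _ => norm_nonneg _) (fun k => ?_) ((summ a).mul_right C)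
  rw [norm_smul, Real.norm_eq_abs]
  exact mul_le_mul_of_nonneg_left (hC k) (abs_nonneg _)

lemma pair_bound {y : ℕ → X} {C : ℝ} (hy : ∀ k, 0 ≤ y k)
    (hC : ∀ k, ‖y k + y (k + 1)‖ ≤ C) (φ : X →L[ℝ] ℝ) (hφ : ‖φ‖ ≤ 1) (k : ℕ) :
    |φ (y k)| + |φ (y (k + 1))| ≤ C := by
  have main : ∀ s t : ℝ, |s| ≤ 1 → |t| ≤ 1 → φ (s • y k + t • y (k + 1)) ≤ C := by
    intro s t hs ht
    have h1 : φ (s • y k + t • y (k + 1)) ≤ ‖s • y k + t • y (k + 1)‖ := by
      calc φ (s • y k + t • y (k + 1)) ≤ ‖φ (s • y k + t • y (k + 1))‖ := le_abs_self _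
        _ ≤ ‖φ‖ * ‖s • y k + t • y (k + 1)‖ := φ.le_opNorm _
        _ ≤ 1 * ‖s • y k + t • y (k + 1)‖ := mul_le_mul_of_nonneg_right hφ (norm_nonneg _)
        _ = _ := one_mul _
    refine h1.trans (le_trans (norm_le_norm_of_abs_le_abs ?_) (hC k))
    have h2 : ∀ (r : ℝ) (z : X), |r| ≤ 1 → 0 ≤ z → |r • z| ≤ z := by
      intro r z hr hz
      rw [abs_le'] 
      constructor
      · calc r • z ≤ (1 : ℝ) • z := smul_le_smul_of_nonneg_right ((le_abs_self r).trans hr) hz
          _ = z := one_smul _ _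
      · calc -(r • z) = (-r) • z := (neg_smul _ _).symm
          _ ≤ (1 : ℝ) • z := smul_le_smul_of_nonneg_right ((neg_le_abs r).trans hr) hz
          _ = z := one_smul _ _
    calc |s • y k + t • y (k + 1)| ≤ |s • y k| + |t • y (k + 1)| := abs_add_le _ _
      _ ≤ y k + y (k + 1) := add_le_add (h2 s _ hs (hy k)) (h2 t _ ht (hy (k + 1)))
      _ ≤ |y k + y (k + 1)| := le_abs_self _
  have hm : ∀ s t : ℝ, |s| ≤ 1 → |t| ≤ 1 → s * φ (y k) + t * φ (y (k + 1)) ≤ C := by
    intro s t hs ht
    have := main s t hs ht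
    rwa [map_add, map_smul, map_smul, smul_eq_mul, smul_eq_mul] at this
  have e1 : |(1 : ℝ)| ≤ 1 := by norm_num
  have e2 : |(-1 : ℝ)| ≤ 1 := by norm_num
  rcases abs_cases (φ (y k)) with h | h <;> rcases abs_cases (φ (y (k + 1))) with h' | h' <;>
    rw [h.1, h'.1]
  · have := hm 1 1 e1 e1; linarith
  · have := hm 1 (-1) e1 e2; linarith
  · have := hm (-1) 1 e2 e1; linarith
  · have := hm (-1) (-1) e2 e2; linarith

lemma lift_bound {y : ℕ → X} {C : ℝ} (hCpos : 0 < C) (hy : ∀ k, 0 ≤ y k)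
    (hC : ∀ k, ‖y k + y (k + 1)‖ ≤ C) (hC' : ∀ k, ‖y k‖ ≤ C) (a : P) :
    ‖∑' n, a n • y n‖ ≤ C * ‖a‖ := by
  obtain ⟨φ, hφ, hφa⟩ := exists_dual_vector'' ℝ (∑' n, a n • y n)
  have hs := summable_lift hC' a
  rw [φ.map_tsum hs] at hφa
  have hφa' : ‖∑' n, a n • y n‖ = ∑' n, φ (a n • y n) := by
    rw [hφa]; rfl
  rw [hφa']
  let f : K := ⟨fun n => |φ (y n)| / C, fun n => by positivity, fun n => by
    rw [← add_div, div_le_one hCpos]
    exact pair_bound hy hC φ hφ n⟩
  have h1 := le_nrm a f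
  have h2 : ∑' n, φ (a n • y n) ≤ ∑' n, C * (|a n| * f.1 n) := by
    refine Summable.tsum_le_tsum (fun n => ?_) (φ.summable hs) ((summK a f).mul_left C)
    rw [map_smul, smul_eq_mul]
    have : C * (|a n| * f.1 n) = |a n| * |φ (y n)| := by
      show C * (|a n| * (|φ (y n)| / C)) = _
      field_simp
    rw [this, ← abs_mul]
    exact le_abs_self _
  rw [tsum_mul_left] at h2
  exact h2.trans (mul_le_mul_of_nonneg_left h1 hCpos.le)

/-- The operator `a ↦ ∑ a n • y n`. -/
noncomputable def lift (y : ℕ → X) {C : ℝ} (hCpos : 0 < C) (hy : ∀ k, 0 ≤ y k)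
    (hC : ∀ k, ‖y k + y (k + 1)‖ ≤ C) (hC' : ∀ k, ‖y k‖ ≤ C) : P →L[ℝ] X :=
  LinearMap.mkContinuous
    { toFun := fun a => ∑' n, a n • y n
      map_add' := fun a b => by
        rw [← Summable.tsum_add (summable_lift hC' a) (summable_lift hC' b)]
        apply tsum_congr
        intro n
        rw [add_ap, add_smul]
      map_smul' := fun c a => by
        rw [RingHom.id_apply, ← Summable.tsum_const_smul c (summable_lift hC' a)]
        apply tsum_congr
        intro n
        rw [smul_ap, mul_smul] } C (fun a => lift_bound hCpos hy hC hC' a)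

lemma lift_hom (y : ℕ → X) {C : ℝ} (hCpos : 0 < C) (hy : ∀ k, 0 ≤ y k)
    (hC : ∀ k, ‖y k + y (k + 1)‖ ≤ C) (hC' : ∀ k, ‖y k‖ ≤ C)
    (hd : ∀ n m, n ≠ m → y n ⊓ y m = 0) : IsLatticeHom (lift y hCpos hy hC hC') := by
  set L := lift y hCpos hy hC hC' with hL
  have hsum : ∀ a : P, HasSum (fun n => a n • y n) (L a) := fun a => (summable_lift hC' a).hasSum
  have hdis : ∀ a b : P, 0 ≤ a → 0 ≤ b → a ⊓ b = 0 → L a ⊓ L b = 0 := by
    intro a b ha hb hab
    have hpa : 0 ≤ L a := nonneg_hasSum (fun n => smul_nonneg (ha n) (hy n)) (hsum a)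
    apply disj_hasSum hpa (fun n => smul_nonneg (hb n) (hy n)) _ (hsum b)
    intro m
    rw [inf_comm]
    apply disj_hasSum (smul_nonneg (hb m) (hy m)) (fun n => smul_nonneg (ha n) (hy n)) _ (hsum a)
    intro n
    by_cases hnm : n = m
    · subst hnm
      have h0 : min (a n) (b n) = 0 := by
        have := congrArg (fun z : P => z n) hab
        exact this
      have hya : 0 ≤ y n := hy n
      rcases min_choice (a n) (b n) with h | h
      · rw [h] at h0
        rw [h0, zero_smul]
        exact inf_eq_right.2 (smul_nonneg (hb n) hya)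
      · rw [h] at h0
        rw [h0, zero_smul]
        exact inf_eq_left.2 (smul_nonneg (ha n) hya)
    · apply disj_smul (smul_nonneg (hb m) (hy m)) (hy n) _ (ha n)
      rw [inf_comm]
      exact disj_smul (hy n) (hy m) (hd n m hnm) (hb m)
  have hpos : ∀ a : P, L (a ⊔ 0) = L a ⊔ 0 := by
    intro a
    have h1 : (a ⊔ 0) ⊓ ((-a) ⊔ 0) = 0 := by
      apply P_ext
      intro n
      show min (max (a n) 0) (max (-a n) 0) = 0
      rcases le_total (a n) 0 with h | h
      · rw [max_eq_right h, max_eq_left (by linarith), min_eq_left (by linarith)]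
      · rw [max_eq_left h, max_eq_right (by linarith), min_eq_right h]
    have h2 := hdis _ _ le_sup_right le_sup_right h1
    have h3 : L a = L (a ⊔ 0) - L ((-a) ⊔ 0) := by
      rw [← map_sub]
      congr 1
      apply P_ext
      intro n
      show a n = max (a n) 0 - max (-a n) 0
      rcases le_total (a n) 0 with h | h
      · rw [max_eq_right h, max_eq_left (by linarith)]; ring
      · rw [max_eq_left h, max_eq_right (by linarith)]; ring
    rw [h3]
    exact (posPart_of_disj h2).symm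
  have hsup : ∀ a b : P, L (a ⊔ b) = L a ⊔ L b := by
    intro a b
    have h1 : a ⊔ b = (a - b) ⊔ 0 + b := by rw [sup_add, sub_add_cancel, zero_add]
    rw [h1, map_add, hpos, map_sub, sup_add, sub_add_cancel, zero_add]
  intro a b
  refine ⟨hsup a b, ?_⟩
  have h1 := inf_add_sup a b
  have h2 := inf_add_sup (L a) (L b)
  have h3 : L (a ⊓ b) + L (a ⊔ b) = L a + L b := by rw [← map_add, h1, map_add]
  rw [hsup, ← h2] at h3
  exact add_right_cancel h3

end Proj

lemma projective.{u} : Projective.{u} P := by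
  intro X _ _ _ _ _ _ _ J hJ T hT ε hε
  have := hJ.isClosed
  by_cases hT0 : ‖T‖ = 0
  · refine ⟨0, fun a b => by simp, fun a => ?_, by simp [hT0]⟩
    have h1 : ‖T a‖ ≤ 0 := by
      have := T.le_opNorm a
      rwa [hT0, zero_mul] at this
    have h2 : T a = 0 := norm_le_zero_iff.1 h1
    rw [h2]; simp
  have hTpos : 0 < ‖T‖ := lt_of_le_of_ne T.opNorm_nonneg (Ne.symm hT0)
  set C := (1 + ε) * ‖T‖ with hCdef
  have hCpos : 0 < C := by positivity
  have hTC : ‖T‖ < C := by rw [hCdef]; nlinarith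
  have hsup : ∀ (a b : P) (u v : X), T a = J.mkQ u → T b = J.mkQ v → J.mkQ (u ⊔ v) = T (a ⊔ b) :=
    fun a b u v hu hv => (hT a b u v hu hv).1.symm
  have hinf : ∀ (a b : P) (u v : X), T a = J.mkQ u → T b = J.mkQ v → J.mkQ (u ⊓ v) = T (a ⊓ b) :=
    fun a b u v hu hv => (hT a b u v hu hv).2.symm
  have hT00 : T 0 = J.mkQ 0 := by simp
  -- nonnegative representatives of the images of the unit vectors
  have hx0 : ∀ n, ∃ u : X, 0 ≤ u ∧ J.mkQ u = T (e n) := by
    intro n
    obtain ⟨u, hu⟩ := J.mkQ_surjective (T (e n))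
    refine ⟨u ⊔ 0, le_sup_right, ?_⟩
    rw [hsup (e n) 0 u 0 hu.symm hT00]
    congr 1
    apply P_ext
    intro k
    simp only [sup_ap, e_ap, zero_ap]
    split_ifs <;> norm_num
  choose x0 hx0 hx0T using hx0
  -- representatives of the images of the pairs
  have hw : ∀ n, ∃ w : X, 0 ≤ w ∧ J.mkQ w = T (e n + e (n + 1)) ∧ ‖w‖ ≤ C := by
    intro n
    have h1 : ‖T (e n + e (n + 1))‖ ≤ ‖T‖ := by
      refine (T.le_opNorm _).trans ?_
      exact mul_le_of_le_one_right (norm_nonneg _) (norm_e_pair n)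
    obtain ⟨w, hw, hwn⟩ := Submodule.Quotient.norm_mk_lt (T (e n + e (n + 1)))
      (ε := C - ‖T‖) (by linarith)
    have hw' : T (e n + e (n + 1)) = J.mkQ w := hw.symm
    refine ⟨w ⊔ (-w), ?_, ?_, ?_⟩
    · exact abs_nonneg w
    · rw [hsup (e n + e (n + 1)) (-(e n + e (n + 1))) w (-w) hw' (by rw [map_neg, map_neg, hw'])]
      congr 1
      apply P_ext
      intro k
      simp only [sup_ap, add_ap, neg_ap, e_ap]
      split_ifs <;> norm_num
    · have : ‖w ⊔ (-w)‖ = ‖w‖ := norm_abs_eq_norm w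
      rw [this]
      linarith
  choose w hw0 hwT hwC using hw
  -- the corrected representatives
  set x : ℕ → X := fun n => x0 n ⊓ (w n ⊓ w (n - 1)) with hx
  have hxnn : ∀ n, 0 ≤ x n := fun n => le_inf (hx0 n) (le_inf (hw0 n) (hw0 _))
  have hxw : ∀ n, x n ≤ w n := fun n => inf_le_right.trans inf_le_left
  have hxw' : ∀ n, x (n + 1) ≤ w n := fun n => by
    have : x (n + 1) ≤ w (n + 1 - 1) := inf_le_right.trans inf_le_right
    simpa using this
  have mono : ∀ {a b : X}, 0 ≤ a → a ≤ b → ‖a‖ ≤ ‖b‖ := by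
    intro a b ha hab
    apply norm_le_norm_of_abs_le_abs
    rw [abs_of_nonneg ha, abs_of_nonneg (ha.trans hab)]
    exact hab
  have hxC : ∀ n, ‖x n‖ ≤ C := fun n => (mono (hxnn n) (hxw n)).trans (hwC n)
  have hxT : ∀ n, J.mkQ (x n) = T (e n) := by
    intro n
    have h1 := hinf (e n + e (n + 1)) (e (n - 1) + e (n - 1 + 1)) (w n) (w (n - 1))
      (hwT n).symm (hwT (n - 1)).symm
    rw [hx, hinf (e n) _ (x0 n) (w n ⊓ w (n - 1)) (hx0T n).symm h1.symm]
    congr 1
    apply P_ext
    intro k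
    simp only [inf_ap, add_ap, e_ap]
    rcases Nat.eq_zero_or_pos n with rfl | hn
    · by_cases h0 : k = 0
      · subst h0; norm_num
      · by_cases h1 : k = 1
        · subst h1; norm_num
        · simp [h0, h1]
    · have hn1 : n - 1 + 1 = n := by omega
      rw [hn1]
      by_cases h0 : k = n
      · subst h0
        have : k ≠ k - 1 := by omega
        simp [this]
      · simp only [if_neg h0]
        split_ifs <;> norm_num
  -- the disjoint modification
  set y : ℕ → X := disj x with hy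
  have hynn : ∀ n, 0 ≤ y n := disj_nonneg x
  have hyx : ∀ n, y n ≤ x n := disj_le hxnn hxC
  have hyC' : ∀ n, ‖y n‖ ≤ C := fun n => (mono (hynn n) (hyx n)).trans (hxC n)
  have hdis : ∀ n m, n ≠ m → y n ⊓ y m = 0 := fun n m hnm => disj_disj hxnn hxC hnm
  have hyC : ∀ n, ‖y n + y (n + 1)‖ ≤ C := by
    intro n
    refine (mono (add_nonneg (hynn _) (hynn _)) ?_).trans (hwC n)
    have h1 := inf_add_sup (y n) (y (n + 1))
    rw [hdis n (n + 1) (by omega), zero_add] at h1
    rw [← h1]
    exact sup_le ((hyx n).trans (hxw n)) ((hyx (n + 1)).trans (hxw' n))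
  have hyT : ∀ n, J.mkQ (y n) = T (e n) := by
    intro n
    have heC : ∀ k, ‖e k‖ ≤ 1 := norm_e_le
    have h1 : J.mkQ (∑' k, rest x n k) = T (∑' k, rest e n k) := by
      rw [← Submodule.mkQL_apply, J.mkQL.map_tsum (summable_rest hxC n),
        T.map_tsum (summable_rest heC n)]
      apply tsum_congr
      intro k
      unfold rest
      split_ifs
      · simp
      · rw [map_smul, map_smul, Submodule.mkQL_apply, hxT]
    have h2 : T (e n - (2 ^ n : ℝ) • ∑' k, rest e n k)
        = J.mkQ (x n - (2 ^ n : ℝ) • ∑' k, rest x n k) := by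
      rw [map_sub, map_sub, map_smul, map_smul, h1, hxT]
    rw [hy]
    unfold disj
    rw [hsup _ 0 _ 0 h2 hT00]
    congr 1
    apply P_ext
    intro k
    have h3 : (∑' j, rest e n j) k = if k = n then 0 else (1 / 2 : ℝ) ^ k := by
      have h4 := (coord k).map_tsum (summable_rest heC n)
      rw [coord_ap] at h4
      rw [h4, tsum_eq_single k]
      · unfold rest
        split_ifs
        · simp
        · simp [e_ap]
      · intro j hj
        unfold rest
        split_ifs
        · simp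
        · simp [e_ap, hj.symm]
    rw [sup_ap, sub_ap, smul_ap, h3, e_ap, zero_ap]
    split_ifs
    · norm_num
    · have : (0 : ℝ) ≤ 2 ^ n * (1 / 2) ^ k := by positivity
      rw [max_eq_right]
      linarith
  refine ⟨lift y hCpos hynn hyC hyC', lift_hom y hCpos hynn hyC hyC' hdis, ?_, ?_⟩
  · intro a
    show J.mkQ (∑' n, a n • y n) = T a
    rw [← Submodule.mkQL_apply, J.mkQL.map_tsum (summable_lift hyC' a)]
    have h1 := (T.hasSum (hasSum_e a)).tsum_eq
    rw [← h1]
    apply tsum_congr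
    intro n
    rw [Submodule.mkQL_apply, map_smul, map_smul, hyT]
  · exact LinearMap.mkContinuous_norm_le _ hCpos.le _

/-- There is a Dedekind complete (in particular Dedekind `σ`-complete) projective Banach lattice
that is not isometrically lattice isomorphic to any `ℓ₁`-sum of finite-dimensional Banach
lattices. -/
theorem result.{u, v, w} :
    ∃ (P : Type) (_ : NormedAddCommGroup P) (_ : NormedSpace ℝ P) (_ : Lattice P)
      (_ : HasSolidNorm P) (_ : IsOrderedAddMonoid P) (_ : IsOrderedModule ℝ P)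
      (_ : CompleteSpace P),
      DedekindComplete P ∧ DedekindSigmaComplete P ∧ Projective.{u} P ∧
        ¬ IsL1SumOfFiniteDimensional.{v, w} P :=
  ⟨P, inferInstance, inferInstance, inferInstance, inferInstance, inferInstance, inferInstance,
    inferInstance, dedekind, fun S _ h1 h2 => dedekind S h1 h2, projective, notL1⟩

end Pool.Agent.Results.MP_23899c_an.DedekindProjective
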